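import Pool.Agent.Run7.h736.NF.P5

/-!
# Abelian varieties of `GL_2`-type and cuspidal representations in the mean square

Let `F` be a number field (totally real in the question) and `A` an abelian variety over `F` of
`GL_2(M)`-type.  For an embedding `τ` of `M` the two eigenvalues of Frobenius at a prime `v` of good reduction
on the `τ`-part of `H¹(A)`, divided by `√Nv`, have the absolute value `1` (Weil); let `S` be this family, of
rank `2`, or the family of all the eigenvalues on `H¹(A)`, of rank `2 dim A`, or any other family of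
eigenvalues of absolute value at most `1` at almost all primes of `F`.  It is compared with all unitary cuspidal
representations of all groups `GL(n)` over `F`, in particular with the Hilbert newforms.

1. If `L(S × S~, s)` has an order `-k` at `s = 1` (for the `τ`-part of `A` over a totally real field this is
known in many cases by potential modularity, with `k = 1` if the `τ`-part is absolutely irreducible), then
Bessel's inequality holds for the sizes of all the functions `L(S × Π~, s)` at all the points of the line at the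
edge, without any continuation; the sum of the squares of the orders which exist is at most `k`, and if it is
`k`, then the traces of `S` are equal in the mean square to the corresponding isobaric sum.  For `k = 1` there is
a dichotomy: either `S` is equal in the mean square to exactly one cuspidal representation, up to the sign, and
all other `L(S × Π~, s)` have the size `0`, or no `L(S × Π~, s)` which has an order has a zero or a pole at the
edge.
2. There is a gap: if the mean square distance of `S` from an isobaric sum is less than `1`, and the orders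
exist, then it is `0`.
3. In particular if the traces agree outside a set of primes of small positive density.

The definitions are in `Pool.Agent.Run7.h736.NF` (`Places`, `Sys`, `RS` in `P1`, `IsCuspidal`, `MeanSqLE`,
`Hi` in `P3`, `atr` and `RSOrder` in `P4`, `sz` and the places of a number field in `P5`).
-/

set_option autoImplicit false

namespace Pool.Agent.Results.MP_326854_nt.NearHilbertForms

open Filter Topology NumberField IsDedekindDomain
open Run7.h736.NF

/-- the traces agree outside a set of small density -/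
theorem density_gap {𝔓 : Type} [Places 𝔓] [DecidableEq 𝔓] {ι : Type} {π : ι → Sys 𝔓} {S : Sys 𝔓}
    (hS : ∀ v, v ∉ S.bad → ∀ z ∈ S.ev v, ‖z‖ ≤ 1) (T : Finset (ι × ℝ)) (n : ι × ℝ → ℤ)
    (hT : ∀ x ∈ T, ∀ v, v ∉ (π x.1).bad → ∀ z ∈ (π x.1).ev v, ‖z‖ ≤ 1)
    {P : Set 𝔓} {δ : ℝ} (hP : MeanSqLE (P.indicator 1) δ)
    (hf : ∀ᶠ v in cofinite, v ∉ P → (S.ev v).sum = ∑ x ∈ T, (n x : ℂ) * atr π x v) :
    MeanSqLE (fun v => (S.ev v).sum - ∑ x ∈ T, (n x : ℂ) * atr π x v)
      (((S.rank : ℝ) + ∑ x ∈ T, |(n x : ℝ)| * (π x.1).rank) ^ 2 * δ) := by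
  classical
  refine mean_of_density hP ?_ ?_
  · have h2 : ∀ᶠ v : 𝔓 in cofinite, v ∉ S.bad ∪ T.biUnion fun x => (π x.1).bad := by
      rw [eventually_cofinite]
      simp only [not_not]
      exact Finset.finite_toSet _
    filter_upwards [h2] with v hv
    rw [Finset.mem_union, not_or, Finset.mem_biUnion] at hv
    refine (norm_sub_le _ _).trans (add_le_add ?_ ?_)
    · rw [← sys_val S v hv.1]
      exact tr_le_of_tempered hS _
    · refine (norm_sum_le _ _).trans (Finset.sum_le_sum fun x hx => ?_)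
      rw [norm_mul, Complex.norm_intCast]
      exact mul_le_mul_of_nonneg_left (norm_atr (hT x hx) fun h => hv.2 ⟨x, hx, h⟩) (abs_nonneg _)
  · filter_upwards [hf] with v h3 h4
    rw [h3 h4, sub_self]

/-- **Families of eigenvalues over a number field and cuspidal representations.**  `π_e`, `e ∈ ι`, are unitary
cuspidal automorphic representations of groups `GL(n_e)` over the number field `F` with the known properties of
their Rankin-Selberg `L`-functions, for example all those with a normalised central character;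
`x = (e, τ)` stands for `Π_x = π_e ⊗ |det|^(-iτ)`.  `S` is a family of eigenvalues of absolute value at most
`1` at almost all primes of `F`, for example the normalised eigenvalues of Frobenius on the `τ`-part of `H¹(A)`,
`A` an abelian variety of `GL_2`-type.  `sz π S x ε = log |L(S × Π_x~, 1 + ε)| / log(1/ε)`.
1. Let `L(S × S~, s)` have the order `-k` at `s = 1`.  Then
(a) `∑_{x ∈ X} (sz π S x ε)² ≤ k + η` for all finite sets `X`, `η > 0` and all small `ε > 0`;
(b) if the `L(S × Π_x~, s)`, `x ∈ T`, have orders `r_x` at the edge, then `∑ r_x² ≤ k`; if `∑ r_x² = k`, then the mean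
square of `tr(S) + ∑ r_x tr(Π_x)` is `0`, and `sz π S y ε` tends to `-r_y` for all `y`, that is, to `0` for
`y ∉ T`;
(c) if `k = 1` and if `L(S × Π_x~, s)` has an order, then it is `0` or there is a sign `s = ±1` such that the order
is `-s`, the mean square of `tr(S) - s tr(Π_x)` is `0` and `sz π S y ε` tends to `0` for all `y ≠ x`.
2. Let `n_x` be integers, `0` outside of `T`, let the `Π_x`, `x ∈ T`, satisfy the weak form `Hi` of hypothesis H, and
let the mean square of `tr(S) - ∑ n_x tr(Π_x)` be at most `K < 1`.  Then every order of `L(S × Π_x~, s)` at the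
edge which exists is `-n_x`.  If the order `-k` of `L(S × S~, s)` at `1` and the orders for `x ∈ T` exist,
then `k = ∑ n_x²`, the mean square of `tr(S) - ∑ n_x tr(Π_x)` is `0`, and `sz π S y ε` tends to `n_y` for all
`y`.
3. The same is true if the `Π_x`, `x ∈ T`, are tempered and if `tr(S) = ∑ n_x tr(Π_x)` at almost all primes
outside a set of density `δ` with `(rank S + ∑ |n_x| rank Π_x)² δ < 1`. -/
theorem result (F : Type) [Field F] [NumberField F] (ι : Type)
    (π : ι → Sys (HeightOneSpectrum (𝓞 F))) (hπ : IsCuspidal π)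
    (S : Sys (HeightOneSpectrum (𝓞 F))) (hS : ∀ v, v ∉ S.bad → ∀ z ∈ S.ev v, ‖z‖ ≤ 1) :
    (∀ k : ℤ, RSOrder S S 0 (-k) →
      (∀ (X : Finset (ι × ℝ)) (η : ℝ), 0 < η →
        ∀ᶠ ε : ℝ in 𝓝[>] 0, ∑ x ∈ X, sz π S x ε ^ 2 ≤ k + η) ∧
      (∀ (T : Finset (ι × ℝ)) (r : ι × ℝ → ℤ), (∀ x, x ∉ T → r x = 0) →
        (∀ x ∈ T, RSOrder S (π x.1) x.2 (r x)) → ∑ x ∈ T, r x ^ 2 ≤ k ∧
        (∑ x ∈ T, r x ^ 2 = k →
          MeanSqLE (fun v => (S.ev v).sum + ∑ x ∈ T, (r x : ℂ) * atr π x v) 0 ∧
          ∀ y : ι × ℝ, Tendsto (fun ε => sz π S y ε) (𝓝[>] 0) (𝓝 (-r y)))) ∧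
      (k = 1 → ∀ (x : ι × ℝ) (r : ℤ), RSOrder S (π x.1) x.2 r → r = 0 ∨
        ∃ s : ℤ, (s = 1 ∨ s = -1) ∧ r = -s ∧
          MeanSqLE (fun v => (S.ev v).sum - (s : ℂ) * atr π x v) 0 ∧
          ∀ y : ι × ℝ, y ≠ x → Tendsto (fun ε => sz π S y ε) (𝓝[>] 0) (𝓝 0))) ∧
    (∀ (T : Finset (ι × ℝ)) (n : ι × ℝ → ℤ), (∀ x, x ∉ T → n x = 0) →
      (∀ x ∈ T, Hi (π x.1).tr) → ∀ K : ℝ, K < 1 →
      MeanSqLE (fun v => (S.ev v).sum - ∑ x ∈ T, (n x : ℂ) * atr π x v) K →
      (∀ (x : ι × ℝ) (r : ℤ), RSOrder S (π x.1) x.2 r → r = -n x) ∧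
      ∀ k : ℤ, RSOrder S S 0 (-k) → ∀ r : ι × ℝ → ℤ, (∀ x ∈ T, RSOrder S (π x.1) x.2 (r x)) →
        k = ∑ x ∈ T, n x ^ 2 ∧
        MeanSqLE (fun v => (S.ev v).sum - ∑ x ∈ T, (n x : ℂ) * atr π x v) 0 ∧
        ∀ y : ι × ℝ, Tendsto (fun ε => sz π S y ε) (𝓝[>] 0) (𝓝 (n y))) ∧
    ∀ (T : Finset (ι × ℝ)) (n : ι × ℝ → ℤ), (∀ x, x ∉ T → n x = 0) →
      (∀ x ∈ T, ∀ v, v ∉ (π x.1).bad → ∀ z ∈ (π x.1).ev v, ‖z‖ ≤ 1) →
      ∀ (P : Set (HeightOneSpectrum (𝓞 F))) (δ : ℝ), MeanSqLE (P.indicator 1) δ →
      (∀ᶠ v in cofinite, v ∉ P → (S.ev v).sum = ∑ x ∈ T, (n x : ℂ) * atr π x v) →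
      ((S.rank : ℝ) + ∑ x ∈ T, |(n x : ℝ)| * (π x.1).rank) ^ 2 * δ < 1 →
      (∀ (x : ι × ℝ) (r : ℤ), RSOrder S (π x.1) x.2 r → r = -n x) ∧
      ∀ k : ℤ, RSOrder S S 0 (-k) → ∀ r : ι × ℝ → ℤ, (∀ x ∈ T, RSOrder S (π x.1) x.2 (r x)) →
        k = ∑ x ∈ T, n x ^ 2 ∧
        MeanSqLE (fun v => (S.ev v).sum - ∑ x ∈ T, (n x : ℂ) * atr π x v) 0 ∧
        ∀ y : ι × ℝ, Tendsto (fun ε => sz π S y ε) (𝓝[>] 0) (𝓝 (n y)) := by
  classical
  have hv : SqS S.tr := sqs_bdd (tr_le_of_tempered hS)
  have hvi : Hi S.tr := hi_of_tempered hS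
  refine ⟨fun k hk => ⟨fun X η hη => sz_bessel hπ hv hk X hη,
      fun T r hr0 hr => pole_orders hπ hv hk T r hr0 hr, fun hk1 x r hr => ?_⟩,
    fun T n hn hT K hK1 hK => gap hπ hv hvi T n hn hT hK1 hK,
    fun T n hn hT P δ hP hf hδ => gap hπ hv hvi T n hn (fun x hx => hi_of_tempered (hT x hx)) hδ
      (density_gap hS T n hT hP hf)⟩
  subst hk1
  have hr0 : ∀ y, y ∉ ({x} : Finset (ι × ℝ)) → (fun y => if y = x then r else 0) y = 0 := by
    intro y hy
    rw [Finset.mem_singleton] at hy
    simp [hy]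
  obtain ⟨h1, h2⟩ := pole_orders hπ hv hk {x} (fun y => if y = x then r else 0) hr0 (fun y hy => by
    rw [Finset.mem_singleton.1 hy]
    simpa using hr)
  simp only [Finset.sum_singleton, if_true] at h1 h2
  have hr1 : -1 ≤ r ∧ r ≤ 1 := ⟨by nlinarith, by nlinarith⟩
  rcases eq_or_ne r 0 with h0 | h0
  · exact Or.inl h0
  refine Or.inr ⟨-r, by omega, by omega, ?_, fun y hy => ?_⟩
  · have h3 : r ^ 2 = 1 := by
      have : r = 1 ∨ r = -1 := by omega
      rcases this with h | h <;> rw [h] <;> norm_num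
    have h4 := (h2 h3).1
    have e : (fun v => (S.ev v).sum - ((-r : ℤ) : ℂ) * atr π x v) =
        fun v => (S.ev v).sum + (r : ℂ) * atr π x v := by
      funext v
      push_cast
      ring
    rw [e]
    exact h4
  · have h3 : r ^ 2 = 1 := by
      have : r = 1 ∨ r = -1 := by omega
      rcases this with h | h <;> rw [h] <;> norm_num
    have h4 := (h2 h3).2 y
    simpa [hy] using h4

end Pool.Agent.Results.MP_326854_nt.NearHilbertForms
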