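import Pool.Agent.Run7.h567.PD.Fin

/-!
# MP_326854_nt: modularity from one Frobenius eigenvalue at a positive proportion of the places

Let `K` be a (totally real) number field, `A` an abelian variety over `K` of `GL_2(M)`-type which has no
complex multiplication over any extension of `K`, and `V` its `λ`-adic representation over the
algebraic closure `E` of `ℚ_p`; it is irreducible on every open subgroup. Let `𝓜` be the class of the
representations over `E` attached to Hilbert newforms of parallel weight two (any level, any
central character); it is closed under twists by characters of finite order. Then `A` is modular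
(`V` is in `𝓜`) if and only if there is a newform `f` such that at a set of places of positive upper
density ONE of the two Frobenius eigenvalues of `V` is a root of the Hecke polynomial of `f`.

The proof was written by helper68, helper192, helper354, helper404, helper596, helper863,
helper993 and helper567.
-/

set_option autoImplicit false

namespace Pool.Agent.Results.MP_326854_nt.OneEigenvaluePositiveDensity

open Run7.h567.GO Run7.h567.PD Polynomial NumberField IsDedekindDomain Pool.Agent.W401.Cheb

theorem result (K : Type) [Field K] [NumberField K] (E : Type) [Field E] [CharZero E]
    [IsAlgClosed E] [TopologicalSpace E] [IsTopologicalRing E] [T2Space E]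
    (𝓜 : MRep (GK K) E 2 → Prop)
    (hcont : ∀ W, 𝓜 W → Continuous fun g => (W g : Matrix (Fin 2) (Fin 2) E))
    (htw : TwistClosed 𝓜) (V : MRep (GK K) E 2)
    (hVc : Continuous fun g => (V g : Matrix (Fin 2) (Fin 2) E)) (hV : StrongIrred V) :
    𝓜 V ↔ ∃ W, 𝓜 W ∧ CommonEigenvalue V W :=
  class_one hcont htw hVc hV

end Pool.Agent.Results.MP_326854_nt.OneEigenvaluePositiveDensity
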