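import Pool.Agent.Run7.h615.ES.Mod

/-!
# Modularity of virtually Galois invariant abelian varieties of `GL_2`-type

Let `F` be a totally real field, `A` an abelian variety over `F` of `GL_2(M)`-type, and `ρ_A` the
two-dimensional representation of `Gal(ℚ̄/F)` on `V_ℓ(A) ⊗ ℚ̄_ℓ` for an embedding of `M`. For `σ` in
`Gal(ℚ̄/ℚ)` the conjugate of `A` is virtually isomorphic to `A` if the conjugate of `ρ_A` by `σ` is
isomorphic to `ρ_A` over some number field; by Faltings this says that the conjugate variety is isogenous
to `A` over `ℚ̄`, compatibly with the centre of the endomorphism algebra.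

* (1) If all conjugates of `A` by `Gal(ℚ̄/ℚ)` are virtually isomorphic to `A` then `A` is associated to
  a Hilbert newform over `F`. There is no condition on `F` (not even that it is solvable or Galois over
  `ℚ`), on `M` or on the reduction of `A`. For `A` without complex multiplication the condition holds
  if and only if `ρ_A` is isomorphic to the representation of a newform over `ℚ`, over some number field.
* (2) Let `T` be a set of totally real fields which contains solvable extensions, as large as one
  wants, of every totally real field. The conjecture is equivalent to its case of semistable abelian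
  varieties over fields in `T`, without complex multiplication, and to which (1) does not apply.

Proof of (1). The projective representation of `Gal(ℚ̄/F)` given by `ρ_A` extends to `Gal(ℚ̄/ℚ)`: for
every `σ` there is a matrix `P(σ)`, unique up to scalars, with `ρ_A(σ x σ⁻¹) = P(σ) ρ_A(x) P(σ)⁻¹` for `x`
in an open subgroup (which depends on `σ`). It lifts to a representation of `Gal(ℚ̄/ℚ)` isomorphic
to `ρ_A` on an open subgroup (Tate), which is modular (Khare-Wintenberger, Kisin). The newform over `ℚ`
has a base change to `F` (Dieulefait), and its representation differs from `ρ_A` by a character of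
finite order of `Gal(ℚ̄/F)`; so a twist of the base change belongs to `A`.

The known facts are the fields of `Run7.h615.ES.KnownModularity`.
-/

set_option autoImplicit false

namespace Pool.Agent.Results.MP_326854_nt.VirtuallyInvariant

open Run7.h615.ES

/-- (1) -/
def InvariantModular {Γ E : Type} [Group Γ] [Field E] (O : Opens Γ) (D : GL2Type Γ E) : Prop :=
  ∀ F ∈ O.Op, F ∈ D.TR → ∀ A : D.AV F,
    ((∀ σ, VirtInv O D A σ) → D.Modular A) ∧
    (¬ D.CM A → ((∀ σ, VirtInv O D A σ) ↔ ∃ g, D.fld g = ⊤ ∧ VIso O ⊤ (D.rho g) F (D.rep A)))

/-- (2) -/
def Reduction {Γ E : Type} [Group Γ] [Field E] (O : Opens Γ) (D : GL2Type Γ E) : Prop :=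
  ∀ T, CofinalT O D.TR T →
    ((∀ F ∈ O.Op, F ∈ D.TR → ∀ A : D.AV F, D.Modular A) ↔
      ∀ F ∈ O.Op, F ∈ D.TR → F ∈ T → ∀ A : D.AV F, D.Semistable A → ¬ D.CM A →
        (¬ ∀ σ, VirtInv O D A σ) → D.Modular A)

/-- Virtually Galois invariant abelian varieties of `GL_2`-type over totally real fields are modular;
reduction of the conjecture to the other semistable ones. -/
theorem result : ∀ (Γ E : Type) [Group Γ] [Field E] (O : Opens Γ) (D : GL2Type Γ E),
    KnownModularity O D → InvariantModular O D ∧ Reduction O D := by
  intro Γ E _ _ O D h
  refine ⟨fun F hF hr A => ⟨fun hi => h.modular_of_inv hF hr A hi, fun hA => h.inv_iff hF hr A hA⟩,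
    fun T hT => ⟨fun hall F hF hr _ A _ _ _ => hall F hF hr A,
      fun hyp F hF hr A => h.reduction hT (fun L hL hLr hLT B hB => hyp L hL hLr hLT B hB) hF hr A⟩⟩

end Pool.Agent.Results.MP_326854_nt.VirtuallyInvariant
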